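import Pool.Agent.H98.EX.BTargets
import Pool.Agent.H96.Cop.Frac

/-!
# The exact constant of the copolymer slope: the renewal inequality for the moments
-/

set_option autoImplicit false

open MeasureTheory ProbabilityTheory Filter Topology
open scoped ENNReal
open Pool.Agent.H95 Pool.Agent.H95.Cop
open Pool.Agent.H96.Cop (ex pk)
open Pool.Agent.H99.CE (NX w0 w1)

namespace Pool.Agent.H69.EX

open Pool.Agent.H98.EX

lemma um2_i1 (ν : Measure ℝ) [IsProbabilityMeasure ν] {θ : ℝ} (hθ : 0 < θ) {s t : ℕ}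
    (hst : s ≤ t) {a b : (ℕ → ℝ) → ℝ≥0∞} (ha : Measurable a) (hda : DepLt s a)
    (hb : Measurable b) (c : ℝ≥0∞) :
    Measurable (fun x => (a x * (c * b (shift t x))) ^ θ) ∧
    ∫⁻ x, (a x * (c * b (shift t x))) ^ θ ∂(iid ν) =
      (∫⁻ x, a x ^ θ ∂(iid ν)) * (c ^ θ * ∫⁻ x, b x ^ θ ∂(iid ν)) := by
  have h1 : ∀ x : ℕ → ℝ, (a x * (c * b (shift t x))) ^ θ =
      c ^ θ * ((fun x => a x ^ θ) x * (fun x => b x ^ θ) (shift t x)) := by
    intro x
    simp only
    rw [ENNReal.mul_rpow_of_nonneg _ _ hθ.le, ENNReal.mul_rpow_of_nonneg _ _ hθ.le]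
    ring
  have hd : DepLt t (fun x => a x ^ θ) := by
    intro x x' h
    simp only
    rw [hda.mono hst x x' h]
  have hm1 : Measurable (fun x => a x ^ θ) := ha.pow_const θ
  have hm2 : Measurable (fun x => b x ^ θ) := hb.pow_const θ
  have hm3 : Measurable (fun x => (fun x => a x ^ θ) x * (fun x => b x ^ θ) (shift t x)) :=
    hm1.mul (hm2.comp (measurable_shift _))
  refine ⟨?_, ?_⟩
  · have e : (fun x => (a x * (c * b (shift t x))) ^ θ) = fun x =>
        c ^ θ * ((fun x => a x ^ θ) x * (fun x => b x ^ θ) (shift t x)) := funext h1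
    rw [e]
    exact hm3.const_mul _
  · rw [lintegral_congr h1, lintegral_const_mul _ hm3,
      Pool.Agent.H96.Cop.lint_mul_shift ν hd hm1 hm2]
    ring

lemma um2_i2 (ν : Measure ℝ) [IsProbabilityMeasure ν] {θ : ℝ} (hθ : 0 < θ) {s t d : ℕ}
    (hst : s ≤ t) (hd0 : t - s = d) {a b : (ℕ → ℝ) → ℝ≥0∞} (ha : Measurable a)
    (hda : DepLt s a) (hb : Measurable b) (c : ℝ≥0∞) :
    Measurable (fun x => (a x * (c * ex s t x * b (shift t x))) ^ θ) ∧
    ∫⁻ x, (a x * (c * ex s t x * b (shift t x))) ^ θ ∂(iid ν) =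
      (∫⁻ x, a x ^ θ ∂(iid ν)) * (c ^ θ * (∫⁻ x, ex 0 d x ^ θ ∂(iid ν)) *
        ∫⁻ x, b x ^ θ ∂(iid ν)) := by
  have e0 : ∀ x : ℕ → ℝ, a x * (c * ex s t x * b (shift t x)) =
      (fun x => a x * ex s t x) x * (c * b (shift t x)) := by
    intro x
    simp only
    ring
  have hm : Measurable (fun x => a x * ex s t x) :=
    ha.mul (Pool.Agent.H96.Cop.measurable_ex s t)
  have hd : DepLt t (fun x => a x * ex s t x) := by
    intro x x' h
    simp only
    rw [hda.mono hst x x' h, Pool.Agent.H96.Cop.ex_dep s t x x' h]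
  obtain ⟨h1, h2⟩ := um2_i1 ν hθ (le_refl t) hm hd hb c
  have e1 : (fun x => (a x * (c * ex s t x * b (shift t x))) ^ θ) = fun x =>
      ((fun x => a x * ex s t x) x * (c * b (shift t x))) ^ θ := by
    funext x
    rw [e0 x]
  rw [e1]
  refine ⟨h1, h2.trans ?_⟩
  have e2 : ∀ x : ℕ → ℝ, (a x * ex s t x) ^ θ =
      (fun x => a x ^ θ) x * (fun x => ex 0 (t - s) x ^ θ) (shift s x) := by
    intro x
    simp only
    rw [Pool.Agent.H96.Cop.ex_shift, zero_add, Nat.sub_add_cancel hst,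
      ENNReal.mul_rpow_of_nonneg _ _ hθ.le]
  have hd1 : DepLt s (fun x => a x ^ θ) := by
    intro x x' h
    simp only
    rw [hda x x' h]
  rw [lintegral_congr e2, Pool.Agent.H96.Cop.lint_mul_shift ν hd1 (ha.pow_const θ)
    ((Pool.Agent.H96.Cop.measurable_ex 0 (t - s)).pow_const θ), hd0]
  ring

/-- the product of sums -/
lemma um2_mul (A B a b u v : ℝ≥0∞) :
    A * (a * u) + B * (b * v) ≤ (A + B) * ((a + b) * (u + v)) := by
  rw [add_mul]
  refine add_le_add ?_ ?_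
  · exact mul_le_mul' le_rfl (mul_le_mul' le_self_add le_self_add)
  · exact mul_le_mul' le_rfl (mul_le_mul' le_add_self le_add_self)

theorem pf_UM2 (hPFM : Pool.Agent.H99.CE.T_PFM) (hREX : Pool.Agent.H99.CE.T_REX)
    (hUD2 : T_UD2) : T_UM2 := by
  intro K ν _ k B ga gb θ fh lh hk hkB hθ0 hθ1 hga hgb hfh hlh hfl
  have hw1 := (hPFM.2 K).1 B
  have hw0 := (hPFM.2 K).2 k k
  have hN1 := (hPFM.1 _ hw1).2.2
  have hN0 := (hPFM.1 _ hw0).2.2
  refine hREX (fn K k ν θ) (fun D => ga D ^ θ + gb D ^ θ *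
    ∫⁻ x, ex 0 ((D - 1) * k) x ^ θ ∂(iid ν)) (yn K k B ν θ) fh lh ?_ hfh hlh hfl
  intro j
  -- one start
  have hp : ∀ p : Bool, ∫⁻ x, NX (w1 K B) k p false j x ^ θ ∂(iid ν) ≤
      ∫⁻ x, NX (w0 K k k) k p false j x ^ θ ∂(iid ν) +
      ∑ i ∈ Finset.range (j + 1), ∑ D ∈ Finset.Icc 1 j, if i + D ≤ j then
        ((∫⁻ x, NX (w0 K k k) k p false i x ^ θ ∂(iid ν)) * (ga D ^ θ *
          ∫⁻ x, NX (w1 K B) k false false (j - i - D) x ^ θ ∂(iid ν)) +
        (∫⁻ x, NX (w0 K k k) k p true i x ^ θ ∂(iid ν)) * (gb D ^ θ *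
          (∫⁻ x, ex 0 ((D - 1) * k) x ^ θ ∂(iid ν)) *
          ∫⁻ x, NX (w1 K B) k true false (j - i - D) x ^ θ ∂(iid ν))) else 0 := by
    intro p
    obtain ⟨u1, hu1⟩ : ∃ u1 : ℕ → ℕ → (ℕ → ℝ) → ℝ≥0∞, u1 = fun i D x =>
      (NX (w0 K k k) k p false i x * (ga D * NX (w1 K B) k false false (j - i - D)
        (shift ((i + D) * k) x))) ^ θ := ⟨_, rfl⟩
    obtain ⟨u2, hu2⟩ : ∃ u2 : ℕ → ℕ → (ℕ → ℝ) → ℝ≥0∞, u2 = fun i D x =>
      (NX (w0 K k k) k p true i x * (gb D * ex ((i + 1) * k) ((i + D) * k) x *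
        NX (w1 K B) k true false (j - i - D) (shift ((i + D) * k) x))) ^ θ := ⟨_, rfl⟩
    have hpt : ∀ x : ℕ → ℝ, NX (w1 K B) k p false j x ^ θ ≤
        NX (w0 K k k) k p false j x ^ θ + ∑ i ∈ Finset.range (j + 1), ∑ D ∈ Finset.Icc 1 j,
          if i + D ≤ j then u1 i D x + u2 i D x else 0 := by
      intro x
      refine (ENNReal.rpow_le_rpow (hUD2 K k B ga gb hk hkB hga hgb p j x) hθ0.le).trans ?_
      refine (ENNReal.rpow_add_le_add_rpow _ _ hθ0.le hθ1).trans (add_le_add le_rfl ?_)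
      refine (Pool.Agent.H96.Cop.rpow_sum_le _ _ θ hθ0 hθ1).trans
        (Finset.sum_le_sum fun i _ => ?_)
      refine (Pool.Agent.H96.Cop.rpow_sum_le _ _ θ hθ0 hθ1).trans
        (Finset.sum_le_sum fun D _ => ?_)
      by_cases h : i + D ≤ j
      · rw [if_pos h, if_pos h, hu1, hu2]
        exact ENNReal.rpow_add_le_add_rpow _ _ hθ0.le hθ1
      · rw [if_neg h, if_neg h, ENNReal.zero_rpow_of_pos hθ0]
    have hle : ∀ i D, 1 ≤ D → (i + 1) * k ≤ (i + D) * k := fun i D hD =>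
      Nat.mul_le_mul_right k (by omega)
    have hdi : ∀ i D, 1 ≤ D → (i + D) * k - (i + 1) * k = (D - 1) * k := fun i D hD => by
      rw [← Nat.sub_mul]
      congr 1
      omega
    have hi1 : ∀ i D, 1 ≤ D → Measurable (u1 i D) ∧ ∫⁻ x, u1 i D x ∂(iid ν) =
        (∫⁻ x, NX (w0 K k k) k p false i x ^ θ ∂(iid ν)) * (ga D ^ θ *
          ∫⁻ x, NX (w1 K B) k false false (j - i - D) x ^ θ ∂(iid ν)) := by
      intro i D hD
      rw [hu1]
      exact um2_i1 ν hθ0 (hle i D hD) (hN0 k p false i).1 (hN0 k p false i).2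
        (hN1 k false false (j - i - D)).1 (ga D)
    have hi2 : ∀ i D, 1 ≤ D → Measurable (u2 i D) ∧ ∫⁻ x, u2 i D x ∂(iid ν) =
        (∫⁻ x, NX (w0 K k k) k p true i x ^ θ ∂(iid ν)) * (gb D ^ θ *
          (∫⁻ x, ex 0 ((D - 1) * k) x ^ θ ∂(iid ν)) *
          ∫⁻ x, NX (w1 K B) k true false (j - i - D) x ^ θ ∂(iid ν)) := by
      intro i D hD
      rw [hu2]
      exact um2_i2 ν hθ0 (hle i D hD) (hdi i D hD) (hN0 k p true i).1 (hN0 k p true i).2
        (hN1 k true false (j - i - D)).1 (gb D)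
    have hmu : ∀ i D, 1 ≤ D →
        Measurable fun x => if i + D ≤ j then u1 i D x + u2 i D x else 0 := by
      intro i D hD
      by_cases h : i + D ≤ j
      · simp only [if_pos h]
        exact (hi1 i D hD).1.add (hi2 i D hD).1
      · simp only [if_neg h]
        exact measurable_const
    refine (lintegral_mono hpt).trans ?_
    rw [lintegral_add_left ((hN0 k p false j).1.pow_const θ)]
    refine add_le_add le_rfl ?_
    rw [lintegral_finsetSum _ fun i _ => Finset.measurable_sum _ fun D hD =>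
      hmu i D (Finset.mem_Icc.1 hD).1]
    refine Finset.sum_le_sum fun i _ => ?_
    rw [lintegral_finsetSum _ fun D hD => hmu i D (Finset.mem_Icc.1 hD).1]
    refine Finset.sum_le_sum fun D hD => ?_
    have hD1 := (Finset.mem_Icc.1 hD).1
    by_cases h : i + D ≤ j
    · simp only [if_pos h]
      rw [lintegral_add_left (hi1 i D hD1).1]
      exact add_le_add (le_of_eq (hi1 i D hD1).2) (le_of_eq (hi2 i D hD1).2)
    · simp only [if_neg h]
      simp
  -- the sum of the two starts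
  refine (Finset.sum_le_sum fun p (_ : p ∈ (Finset.univ : Finset Bool)) => hp p).trans ?_
  rw [Finset.sum_add_distrib]
  refine add_le_add ?_ ?_
  · unfold fn
    refine Finset.sum_le_sum fun p _ => ?_
    exact Finset.single_le_sum (f := fun r : Bool =>
      ∫⁻ x, NX (w0 K k k) k p r j x ^ θ ∂(iid ν)) (fun _ _ => zero_le) (Finset.mem_univ false)
  · rw [Finset.sum_comm]
    refine Finset.sum_le_sum fun i _ => ?_
    rw [Finset.sum_comm]
    refine Finset.sum_le_sum fun D _ => ?_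
    by_cases h : i + D ≤ j
    · simp only [if_pos h]
      have hy : yn K k B ν θ (j - i - D) =
          ∫⁻ x, NX (w1 K B) k false false (j - i - D) x ^ θ ∂(iid ν) +
          ∫⁻ x, NX (w1 K B) k true false (j - i - D) x ^ θ ∂(iid ν) := by
        unfold yn
        rw [Fintype.sum_bool, add_comm]
      rw [hy]
      unfold fn
      rw [Finset.sum_mul]
      refine Finset.sum_le_sum fun p _ => ?_
      rw [Fintype.sum_bool, add_comm (∫⁻ x, NX (w0 K k k) k p true i x ^ θ ∂(iid ν))]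
      exact um2_mul _ _ _ _ _ _
    · simp only [if_neg h]
      simp

end Pool.Agent.H69.EX
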