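import Pool.Agent.H98.EX.PTargets

/-!
# The exact constant of the copolymer slope: a variance bound
-/

set_option autoImplicit false

open MeasureTheory ProbabilityTheory
open scoped ENNReal

namespace Pool.Agent.H69.EX

open Pool.Agent.H98.EX

section

variable {Ω : Type*} [MeasurableSpace Ω]

/-- the variance bound for real functions -/
theorem real_vab (P : Measure Ω) [IsProbabilityMeasure P] (a g : Ω → ℝ) (ha : MemLp a 2 P)
    (hg : MemLp g 2 P) (hg0 : ∀ x, 0 ≤ g x) (V : ℝ) (hV : 0 ≤ V) (hm : 0 ≤ ∫ x, a x ∂P)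
    (h : ∫ x, a x ^ 2 ∂P ≤ (1 + V) * (∫ x, a x ∂P) ^ 2) :
    ∫ x, g x * a x ∂P ≤ (∫ x, g x ∂P + Real.sqrt V * Real.sqrt (∫ x, g x ^ 2 ∂P)) *
      ∫ x, a x ∂P := by
  obtain ⟨m, hmd⟩ : ∃ m : ℝ, m = ∫ x, a x ∂P := ⟨_, rfl⟩
  rw [← hmd] at h hm ⊢
  have ha1 : Integrable a P := ha.integrable (by norm_num)
  have hg1 : Integrable g P := hg.integrable (by norm_num)
  have hb : MemLp (fun x => a x - m) 2 P := ha.sub (memLp_const m)
  have hba : MemLp (fun x => |a x - m|) 2 P := hb.abs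
  have hga : Integrable (fun x => g x * a x) P := hg.integrable_mul ha
  have hgb : Integrable (fun x => g x * |a x - m|) P := hg.integrable_mul hba
  have ha2 : Integrable (fun x => a x ^ 2) P := ha.integrable_sq
  -- the variance
  have h1 : ∫ x, |a x - m| ^ 2 ∂P = ∫ x, a x ^ 2 ∂P - m ^ 2 := by
    have e1 : ∀ x, |a x - m| ^ 2 = a x ^ 2 - (2 * m * a x - m ^ 2) := fun x => by
      rw [sq_abs]; ring
    have e2 : Integrable (fun x => 2 * m * a x - m ^ 2) P :=
      (ha1.const_mul (2 * m)).sub (integrable_const (m ^ 2))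
    have e3 : ∫ x, (2 * m * a x - m ^ 2) ∂P = 2 * m * m - m ^ 2 := by
      have e4 := integral_sub (ha1.const_mul (2 * m)) (integrable_const (μ := P) (m ^ 2))
      have e5 : ∫ x, 2 * m * a x ∂P = 2 * m * m := by
        rw [integral_const_mul, ← hmd]
      have e6 : ∫ _, m ^ 2 ∂P = m ^ 2 := by simp
      rw [e5, e6] at e4
      exact e4
    have e7 := integral_sub ha2 e2
    rw [e3] at e7
    simp only [e1]
    rw [e7]
    ring
  have h2 : ∫ x, |a x - m| ^ 2 ∂P ≤ V * m ^ 2 := by rw [h1]; linarith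
  -- Cauchy-Schwarz
  have h3 : ∫ x, g x * |a x - m| ∂P ≤
      (∫ x, g x ^ (2 : ℝ) ∂P) ^ (1 / 2 : ℝ) * (∫ x, |a x - m| ^ (2 : ℝ) ∂P) ^ (1 / 2 : ℝ) := by
    refine integral_mul_le_Lp_mul_Lq_of_nonneg (Real.HolderConjugate.two_two)
      (Filter.Eventually.of_forall hg0) (Filter.Eventually.of_forall fun x => abs_nonneg _) ?_ ?_
    · simpa using hg
    · simpa using hba
  simp only [Real.rpow_two, ← Real.sqrt_eq_rpow] at h3
  have h4 : Real.sqrt (∫ x, |a x - m| ^ 2 ∂P) ≤ Real.sqrt V * m := by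
    refine (Real.sqrt_le_sqrt h2).trans (le_of_eq ?_)
    rw [Real.sqrt_mul hV, Real.sqrt_sq hm]
  have h5 : ∫ x, g x * a x ∂P ≤ ∫ x, (m * g x + g x * |a x - m|) ∂P := by
    refine integral_mono hga ((hg1.const_mul m).add hgb) fun x => ?_
    have h6 := mul_le_mul_of_nonneg_left (le_abs_self (a x - m)) (hg0 x)
    show g x * a x ≤ m * g x + g x * |a x - m|
    linarith
  rw [integral_add (hg1.const_mul m) hgb, integral_const_mul] at h5
  have h7 := mul_le_mul_of_nonneg_left h4 (Real.sqrt_nonneg (∫ x, g x ^ 2 ∂P))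
  have h8 : (∫ x, g x ∂P + Real.sqrt V * Real.sqrt (∫ x, g x ^ 2 ∂P)) * m =
      m * ∫ x, g x ∂P + Real.sqrt (∫ x, g x ^ 2 ∂P) * (Real.sqrt V * m) := by ring
  rw [h8]
  linarith

end

theorem pf_VAB : T_VAB := by
  intro P _ c A f hc hA hf hf1 hLL hA1
  unfold LL at hLL
  obtain ⟨m, hmd⟩ : ∃ m : ℝ, m = (∫⁻ x, A x ∂P).toReal := ⟨_, rfl⟩
  have hm : ∫⁻ x, A x ∂P = ENNReal.ofReal m := by rw [hmd, ENNReal.ofReal_toReal hA1]
  have hm0 : 0 ≤ m := by rw [hmd]; exact ENNReal.toReal_nonneg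
  have hec : 0 < Real.exp c := Real.exp_pos c
  rw [hm, ← ENNReal.ofReal_mul hec.le] at hLL
  have hX : ∫⁻ x, A x ^ (2 : ℝ) ∂P ≤ ENNReal.ofReal ((Real.exp c * m) ^ 2) := by
    have h1 := ENNReal.rpow_le_rpow hLL (by norm_num : (0 : ℝ) ≤ 2)
    rw [← ENNReal.rpow_mul, show (1 / 2 : ℝ) * 2 = 1 by norm_num, ENNReal.rpow_one,
      ENNReal.ofReal_rpow_of_nonneg (by positivity) (by norm_num), Real.rpow_two] at h1
    exact h1
  have hXf : ∫⁻ x, A x ^ (2 : ℝ) ∂P ≠ ∞ := ne_top_of_le_ne_top ENNReal.ofReal_ne_top hX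
  have hAf : ∀ᵐ x ∂P, A x < ∞ := ae_lt_top hA hA1
  have hff : ∀ x, f x < ∞ := fun x => lt_of_le_of_lt (hf1 x) ENNReal.one_lt_top
  have hf2 : ∀ x, f x ^ (2 : ℝ) ≤ 1 := fun x => by
    have := ENNReal.rpow_le_rpow (hf1 x) (by norm_num : (0 : ℝ) ≤ 2)
    rwa [ENNReal.one_rpow] at this
  have hI1 : ∫⁻ x, f x ∂P ≤ 1 := by
    refine (lintegral_mono hf1).trans ?_
    simp
  have hI2 : ∫⁻ x, f x ^ (2 : ℝ) ∂P ≤ 1 := by
    refine (lintegral_mono hf2).trans ?_
    simp
  have hJ : ∫⁻ x, f x * A x ∂P ≠ ∞ := by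
    refine ne_top_of_le_ne_top hA1 (lintegral_mono fun x => ?_)
    calc f x * A x ≤ 1 * A x := by gcongr; exact hf1 x
      _ = A x := one_mul _
  have ea : ∀ x, (A x).toReal ^ 2 = (A x ^ (2 : ℝ)).toReal := fun x => by
    rw [← ENNReal.toReal_rpow, Real.rpow_two]
  have ef : ∀ x, (f x).toReal ^ 2 = (f x ^ (2 : ℝ)).toReal := fun x => by
    rw [← ENNReal.toReal_rpow, Real.rpow_two]
  have ha : MemLp (fun x => (A x).toReal) 2 P := by
    rw [memLp_two_iff_integrable_sq hA.ennreal_toReal.aestronglyMeasurable]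
    simp only [ea]
    exact integrable_toReal_of_lintegral_ne_top (hA.pow_const _).aemeasurable hXf
  have hg : MemLp (fun x => (f x).toReal) 2 P := by
    rw [memLp_two_iff_integrable_sq hf.ennreal_toReal.aestronglyMeasurable]
    simp only [ef]
    exact integrable_toReal_of_lintegral_ne_top (hf.pow_const _).aemeasurable
      (ne_top_of_le_ne_top ENNReal.one_ne_top hI2)
  have i1 : ∫ x, (A x).toReal ∂P = m := by
    rw [integral_toReal hA.aemeasurable hAf, hmd]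
  have i2 : ∫ x, (A x).toReal ^ 2 ∂P ≤ (Real.exp c * m) ^ 2 := by
    simp only [ea]
    rw [integral_toReal (hA.pow_const _).aemeasurable
      (hAf.mono fun x hx => ENNReal.rpow_lt_top_of_nonneg (by norm_num) hx.ne)]
    exact ENNReal.toReal_le_of_le_ofReal (by positivity) hX
  have i3 : ∫ x, (f x).toReal ∂P = (∫⁻ x, f x ∂P).toReal :=
    integral_toReal hf.aemeasurable (Filter.Eventually.of_forall hff)
  have i4 : ∫ x, (f x).toReal ^ 2 ∂P = (∫⁻ x, f x ^ (2 : ℝ) ∂P).toReal := by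
    simp only [ef]
    exact integral_toReal (hf.pow_const _).aemeasurable (Filter.Eventually.of_forall fun x =>
      lt_of_le_of_lt (hf2 x) ENNReal.one_lt_top)
  have i5 : ∫ x, (f x).toReal * (A x).toReal ∂P = (∫⁻ x, f x * A x ∂P).toReal := by
    have : ∀ x, (f x).toReal * (A x).toReal = (f x * A x).toReal := fun x =>
      ENNReal.toReal_mul.symm
    simp only [this]
    exact integral_toReal (hf.mul hA).aemeasurable
      (hAf.mono fun x hx => ENNReal.mul_lt_top (hff x) hx)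
  have hV : 0 ≤ Real.exp (2 * c) - 1 := by
    have := Real.add_one_le_exp (2 * c)
    linarith
  have hmain := real_vab P (fun x => (A x).toReal) (fun x => (f x).toReal) ha hg
    (fun x => ENNReal.toReal_nonneg) (Real.exp (2 * c) - 1) hV (by rw [i1]; exact hm0) (by
      rw [i1]
      refine i2.trans (le_of_eq ?_)
      rw [mul_pow, ← Real.exp_nat_mul]
      push_cast
      ring)
  rw [i1, i3, i4, i5] at hmain
  have hI1' : ∫⁻ x, f x ∂P = ENNReal.ofReal (∫⁻ x, f x ∂P).toReal :=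
    (ENNReal.ofReal_toReal (ne_top_of_le_ne_top ENNReal.one_ne_top hI1)).symm
  have hI2' : ∫⁻ x, f x ^ (2 : ℝ) ∂P = ENNReal.ofReal (∫⁻ x, f x ^ (2 : ℝ) ∂P).toReal :=
    (ENNReal.ofReal_toReal (ne_top_of_le_ne_top ENNReal.one_ne_top hI2)).symm
  rw [← ENNReal.ofReal_toReal hJ, hm, hI1', hI2',
    ENNReal.ofReal_rpow_of_nonneg ENNReal.toReal_nonneg (by norm_num),
    ← ENNReal.ofReal_mul (Real.sqrt_nonneg _),
    ← ENNReal.ofReal_add ENNReal.toReal_nonneg (by positivity),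
    ← ENNReal.ofReal_mul (by positivity), ← Real.sqrt_eq_rpow]
  exact ENNReal.ofReal_le_ofReal hmain

end Pool.Agent.H69.EX
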