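import Pool.Agent.H98.EX.LTargets
import Pool.Agent.H98.SLN.INR

/-!
# The exact constant of the copolymer slope: the exponent of a pair under its tilt
-/

set_option autoImplicit false

open MeasureTheory ProbabilityTheory Filter Topology
open scoped ENNReal
open Pool.Agent.H95 Pool.Agent.H95.Cop
open Pool.Agent.H55.CG (Mo)

namespace Pool.Agent.H69.EX

open Pool.Agent.H98.EX

theorem meas_H (a b : ℕ) : Measurable (fun x : ℕ → ℝ => H x a b) := by
  unfold H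
  exact Finset.measurable_sum _ (fun i _ => measurable_pi_apply i)

/-- exponential moments of the sums of increments -/
theorem H_int (ρ : Measure ℝ) [IsProbabilityMeasure ρ]
    (hint : ∀ t : ℝ, Integrable (fun z => Real.exp (t * z)) ρ) (u : ℝ) (a b : ℕ) (hab : a ≤ b) :
    Integrable (fun y : ℕ → ℝ => Real.exp (u * H y a b)) (iid ρ) ∧
      ∫ y, Real.exp (u * H y a b) ∂(iid ρ) = Mo ρ u ^ (b - a) := by
  have hm : Measurable (fun x : ℕ → ℝ => Real.exp (u * H x 0 (b - a))) :=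
    Real.measurable_exp.comp ((meas_H 0 (b - a)).const_mul u)
  have hl := Pool.Agent.H98.SLN.lint_exp_u ρ hint u (b - a)
  have h1 : Integrable (fun y : ℕ → ℝ => Real.exp (u * H y 0 (b - a))) (iid ρ) := by
    refine ⟨hm.aestronglyMeasurable, ?_⟩
    rw [hasFiniteIntegral_iff_ofReal (Eventually.of_forall (fun x => (Real.exp_pos _).le)), hl]
    exact ENNReal.ofReal_lt_top
  have h2 : ∫ y : ℕ → ℝ, Real.exp (u * H y 0 (b - a)) ∂(iid ρ) = Mo ρ u ^ (b - a) := by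
    rw [integral_eq_lintegral_of_nonneg_ae (Eventually.of_forall (fun x => (Real.exp_pos _).le))
      h1.1, hl, ENNReal.toReal_ofReal]
    exact pow_nonneg (integral_nonneg fun z => (Real.exp_pos _).le) _
  have h3 : ∀ y : ℕ → ℝ, Real.exp (u * H y a b) =
      (fun y : ℕ → ℝ => Real.exp (u * H y 0 (b - a))) (shift a y) := by
    intro y
    simp only
    rw [Pool.Agent.H95.Cop.H_shift, zero_add, Nat.sub_add_cancel hab]
  simp_rw [h3]
  exact ⟨integrable_comp_shift ρ h1, (integral_comp_shift ρ h1).trans h2⟩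

/-- the bounds for the moments of an increment -/
theorem mo_bds (hYSM : T_YSM) (ν : Measure ℝ) (k : ℕ) (ϑ ε τ : ℝ) (hE : EG ν k ϑ ε τ 3)
    (hk : 1 ≤ k) (v : ℝ) (hv : |v| ≤ 6) :
    Real.exp (ϑ * (v ^ 2 / 2 - v / 4 - v * ε) - τ) ≤ Mo (rl ν k ϑ) v ∧
      Mo (rl ν k ϑ) v ≤ Real.exp (ϑ * (v ^ 2 / 2 - v / 4 - v * ε) + τ) := by
  haveI := hE.prob
  obtain ⟨-, -, -, h4, -⟩ := hYSM ν hE.exp k ϑ hk
  have h5 : |v / 2| ≤ 3 := by
    rw [abs_div, abs_two]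
    linarith
  rw [h4 v]
  have h6 := hE.lo (v / 2) h5
  have h7 := hE.up (v / 2) h5
  constructor
  · calc Real.exp (ϑ * (v ^ 2 / 2 - v / 4 - v * ε) - τ) = Real.exp (v * ϑ / 2) *
          Real.exp (ϑ * (2 * (v / 2) ^ 2 - 2 * (v / 2) * (3 / 4 + ε)) - τ) := by
          rw [← Real.exp_add]
          congr 1
          ring
      _ ≤ _ := mul_le_mul_of_nonneg_left h6 (Real.exp_pos _).le
  · calc _ ≤ Real.exp (v * ϑ / 2) *
          Real.exp (ϑ * (2 * (v / 2) ^ 2 - 2 * (v / 2) * (3 / 4 + ε)) + τ) :=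
          mul_le_mul_of_nonneg_left h7 (Real.exp_pos _).le
      _ = _ := by
          rw [← Real.exp_add]
          congr 1
          ring

/-- one of the two sides -/
theorem side (γ w M M' ϑ ε τ s m δ : ℝ) (D : ℕ)
    (hM : Real.exp (ϑ * (γ ^ 2 / 2 - γ / 4 - γ * ε) - τ) ≤ M)
    (hM' : M' ≤ Real.exp (ϑ * (w ^ 2 / 2 - w / 4 - w * ε) + τ)) (hM0 : 0 ≤ M') (t : ℝ)
    (h : t * (ϑ / 4) + ϑ * ((w ^ 2 / 2 - w / 4 - w * ε) - (γ ^ 2 / 2 - γ / 4 - γ * ε)) ≤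
      ϑ * (s * (ε + δ) + s ^ 2 / 2)) :
    Real.exp (-(s * m) + t * (ϑ / 4 * D)) * M' ^ D ≤
      M ^ D * Real.exp (-(s * m) + D * (ϑ * (s * (ε + δ) + s ^ 2 / 2) + 2 * τ)) := by
  have hMp : 0 < M := lt_of_lt_of_le (Real.exp_pos _) hM
  have h1 : M' ≤ M * Real.exp (ϑ * ((w ^ 2 / 2 - w / 4 - w * ε) -
      (γ ^ 2 / 2 - γ / 4 - γ * ε)) + 2 * τ) := by
    calc M' ≤ _ := hM'
      _ = Real.exp (ϑ * (γ ^ 2 / 2 - γ / 4 - γ * ε) - τ) * Real.exp (ϑ * ((w ^ 2 / 2 - w / 4 -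
          w * ε) - (γ ^ 2 / 2 - γ / 4 - γ * ε)) + 2 * τ) := by
          rw [← Real.exp_add]
          congr 1
          ring
      _ ≤ _ := mul_le_mul_of_nonneg_right hM (Real.exp_pos _).le
  have h2 : M' ^ D ≤ M ^ D * Real.exp (D * (ϑ * ((w ^ 2 / 2 - w / 4 - w * ε) -
      (γ ^ 2 / 2 - γ / 4 - γ * ε)) + 2 * τ)) := by
    rw [Real.exp_nat_mul, ← mul_pow]
    exact pow_le_pow_left₀ hM0 h1 D
  calc Real.exp (-(s * m) + t * (ϑ / 4 * D)) * M' ^ D ≤ Real.exp (-(s * m) + t * (ϑ / 4 * D)) *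
        (M ^ D * Real.exp (D * (ϑ * ((w ^ 2 / 2 - w / 4 - w * ε) -
        (γ ^ 2 / 2 - γ / 4 - γ * ε)) + 2 * τ))) :=
        mul_le_mul_of_nonneg_left h2 (Real.exp_pos _).le
    _ = M ^ D * Real.exp (-(s * m) + D * (t * (ϑ / 4) + ϑ * ((w ^ 2 / 2 - w / 4 - w * ε) -
        (γ ^ 2 / 2 - γ / 4 - γ * ε)) + 2 * τ)) := by
        rw [mul_left_comm, ← Real.exp_add]
        congr 2
        ring
    _ ≤ _ := by
        refine mul_le_mul_of_nonneg_left (Real.exp_le_exp.2 ?_) (pow_pos hMp D).le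
        have h3 : (D : ℝ) * (t * (ϑ / 4) + ϑ * ((w ^ 2 / 2 - w / 4 - w * ε) -
            (γ ^ 2 / 2 - γ / 4 - γ * ε)) + 2 * τ) ≤
            D * (ϑ * (s * (ε + δ) + s ^ 2 / 2) + 2 * τ) :=
          mul_le_mul_of_nonneg_left (by linarith) (Nat.cast_nonneg D)
        linarith

theorem pf_WNX (hYSM : T_YSM) : T_WNX := by
  intro ν k ϑ ε τ hE hk hϑ hε hτ γ δ s m hγ1 hγ2 hγ3 hs0 hs1 hm a b hab
  haveI := hE.prob
  obtain ⟨-, hpr, hint, -, -⟩ := hYSM ν hE.exp k ϑ hk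
  haveI := hpr
  obtain ⟨D, hD⟩ : ∃ D : ℕ, D = b + 1 - a := ⟨_, rfl⟩
  have hDr : (b : ℝ) + 1 - a = (D : ℝ) := by
    rw [hD, Nat.cast_sub (by omega)]
    push_cast
    ring
  rw [hDr, ← hD]
  obtain ⟨c, hc⟩ : ∃ c : ℝ, c = ϑ / 4 * (D : ℝ) := ⟨_, rfl⟩
  rw [← hc]
  obtain ⟨i1, j1⟩ := H_int (rl ν k ϑ) hint (γ + s) a (b + 1) (by omega)
  obtain ⟨i2, j2⟩ := H_int (rl ν k ϑ) hint (γ - s) a (b + 1) (by omega)
  obtain ⟨i0, -⟩ := H_int (rl ν k ϑ) hint γ a (b + 1) (by omega)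
  have hS : MeasurableSet {y : ℕ → ℝ | m < |H y a (b + 1) - c|} :=
    measurableSet_lt measurable_const ((meas_H a (b + 1)).sub_const c).abs
  have hpt : ∀ y ∈ {y : ℕ → ℝ | m < |H y a (b + 1) - c|}, Real.exp (γ * H y a (b + 1)) ≤
      Real.exp (-(s * m) + -s * c) * Real.exp ((γ + s) * H y a (b + 1)) +
      Real.exp (-(s * m) + s * c) * Real.exp ((γ - s) * H y a (b + 1)) := by
    intro y hy
    rw [← Real.exp_add, ← Real.exp_add]
    have hy' : m < |H y a (b + 1) - c| := hy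
    rcases lt_abs.1 hy' with h | h
    · have h1 : Real.exp (γ * H y a (b + 1)) ≤
          Real.exp (-(s * m) + -s * c + (γ + s) * H y a (b + 1)) := by
        apply Real.exp_le_exp.2
        nlinarith
      exact h1.trans (le_add_of_nonneg_right (Real.exp_pos _).le)
    · have h1 : Real.exp (γ * H y a (b + 1)) ≤
          Real.exp (-(s * m) + s * c + (γ - s) * H y a (b + 1)) := by
        apply Real.exp_le_exp.2
        nlinarith
      exact h1.trans (le_add_of_nonneg_left (Real.exp_pos _).le)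
  have hI : Integrable (fun y : ℕ → ℝ =>
      Real.exp (-(s * m) + -s * c) * Real.exp ((γ + s) * H y a (b + 1)) +
      Real.exp (-(s * m) + s * c) * Real.exp ((γ - s) * H y a (b + 1))) (iid (rl ν k ϑ)) :=
    (i1.const_mul _).add (i2.const_mul _)
  have h5 : ∫ y in {y : ℕ → ℝ | m < |H y a (b + 1) - c|},
      Real.exp (γ * H y a (b + 1)) ∂(iid (rl ν k ϑ)) ≤
      Real.exp (-(s * m) + -s * c) * Mo (rl ν k ϑ) (γ + s) ^ D +
      Real.exp (-(s * m) + s * c) * Mo (rl ν k ϑ) (γ - s) ^ D := by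
    refine (setIntegral_mono_on i0.integrableOn hI.integrableOn hS hpt).trans ?_
    refine (setIntegral_le_integral hI (Eventually.of_forall fun y => ?_)).trans (le_of_eq ?_)
    · exact add_nonneg (mul_pos (Real.exp_pos _) (Real.exp_pos _)).le
        (mul_pos (Real.exp_pos _) (Real.exp_pos _)).le
    · rw [integral_add (i1.const_mul _) (i2.const_mul _), integral_const_mul,
        integral_const_mul, j1, j2, hD]
  have hB0 := (mo_bds hYSM ν k ϑ ε τ hE hk γ (by rw [abs_of_nonneg] <;> linarith)).1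
  have hB1 := (mo_bds hYSM ν k ϑ ε τ hE hk (γ + s) (by rw [abs_of_nonneg] <;> linarith)).2
  have hB2 := (mo_bds hYSM ν k ϑ ε τ hE hk (γ - s) (by rw [abs_of_nonneg] <;> linarith)).2
  have hp : ∀ u, 0 ≤ Mo (rl ν k ϑ) u := fun u => integral_nonneg fun z => (Real.exp_pos _).le
  have h6 := side γ (γ + s) (Mo (rl ν k ϑ) γ) (Mo (rl ν k ϑ) (γ + s)) ϑ ε τ s m δ D hB0 hB1
    (hp _) (-s) (by
      have e : -s * (ϑ / 4) + ϑ * (((γ + s) ^ 2 / 2 - (γ + s) / 4 - (γ + s) * ε) -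
          (γ ^ 2 / 2 - γ / 4 - γ * ε)) = ϑ * (s * (γ - 1 / 2 - ε) + s ^ 2 / 2) := by ring
      rw [e]
      refine mul_le_mul_of_nonneg_left ?_ hϑ.le
      nlinarith)
  have h7 := side γ (γ - s) (Mo (rl ν k ϑ) γ) (Mo (rl ν k ϑ) (γ - s)) ϑ ε τ s m δ D hB0 hB2
    (hp _) s (by
      have e : s * (ϑ / 4) + ϑ * (((γ - s) ^ 2 / 2 - (γ - s) / 4 - (γ - s) * ε) -
          (γ ^ 2 / 2 - γ / 4 - γ * ε)) = ϑ * (s * (1 / 2 - γ + ε) + s ^ 2 / 2) := by ring
      rw [e]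
      refine mul_le_mul_of_nonneg_left ?_ hϑ.le
      nlinarith)
  rw [← hc] at h6 h7
  refine h5.trans ((add_le_add h6 h7).trans (le_of_eq ?_))
  ring

end Pool.Agent.H69.EX
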